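import Pool.Agent.Lib.MP_39c2b7_co.Interfaces

/-!
# FALLB: exceptional degrees of ring labels
-/

set_option autoImplicit false

namespace StrongArb.H94

open StrongArb

theorem around_spec (P : Pat) (u : ℕ) : ∀ p : List ℕ, P.aroundB u p = true →
    3 ≤ p.length ∧ ∀ i (h : i + 2 < p.length),
      P.cB (p[i+1]'(by omega)) (p[i]'(by omega)) u = true ∧
      P.cB (p[i+1]'(by omega)) u (p[i+2]'(by omega)) = true ∧
      (p[i]'(by omega)) ≠ (p[i+2]'(by omega))
  | [] => by simp [Pat.aroundB]
  | [_] => by simp [Pat.aroundB]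
  | [_, _] => by simp [Pat.aroundB]
  | [x, v, y] => by
      intro h
      simp only [Pat.aroundB, Bool.and_eq_true, Bool.not_eq_true'] at h
      obtain ⟨⟨h1, h2⟩, h3⟩ := h
      refine ⟨by simp, ?_⟩
      intro i hi
      have hi0 : i = 0 := by simp at hi; omega
      subst hi0
      refine ⟨h1, h2, ?_⟩
      intro h
      simp only [List.getElem_cons_zero, List.getElem_cons_succ] at h
      rw [h] at h3
      simp at h3
  | x :: v :: y :: z :: t => by
      intro h
      simp only [Pat.aroundB, Bool.and_eq_true, Bool.not_eq_true'] at h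
      obtain ⟨⟨⟨h1, h2⟩, h3⟩, h4⟩ := h
      obtain ⟨h5, h6⟩ := around_spec P u (v :: y :: z :: t) h4
      refine ⟨by simp, ?_⟩
      intro i hi
      cases i with
      | zero =>
        refine ⟨h1, h2, ?_⟩
        intro h
        simp only [List.getElem_cons_zero, List.getElem_cons_succ] at h
        rw [h] at h3
        simp at h3
      | succ i =>
        have := h6 i (by simp only [List.length_cons] at hi ⊢; omega)
        simpa using this

theorem consB_spec {l : List ℕ} {a b : ℕ} (h : consB l a b = true) :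
    ∃ i, ∃ (hi : i < l.length), ∃ (hj : (i + 1) % l.length < l.length),
      (l[i] = a ∧ l[(i + 1) % l.length] = b) ∨ (l[i] = b ∧ l[(i + 1) % l.length] = a) := by
  unfold consB at h
  rw [List.any_eq_true] at h
  obtain ⟨q, hq, hq2⟩ := h
  obtain ⟨i, hi, hiq⟩ := List.getElem_of_mem hq
  have hi' : i < l.length := by
    simp only [List.length_zip, List.length_rotate, min_self] at hi
    exact hi
  have hj : (i + 1) % l.length < l.length := Nat.mod_lt _ (by omega)
  refine ⟨i, hi', hj, ?_⟩
  have e : q = (l[i], l[(i + 1) % l.length]) := by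
    rw [← hiq, List.getElem_zip, List.getElem_rotate]
  rw [e] at hq2
  simp only [Bool.or_eq_true, Bool.and_eq_true, Nat.beq_eq] at hq2
  rcases hq2 with ⟨h1, h2⟩ | ⟨h1, h2⟩
  · exact Or.inl ⟨h1, h2⟩
  · exact Or.inr ⟨h1, h2⟩

theorem consB_mem {l : List ℕ} {a b : ℕ} (h : consB l a b = true) : a ∈ l ∧ b ∈ l := by
  obtain ⟨i, hi, hj, h⟩ := consB_spec h
  rcases h with ⟨h1, h2⟩ | ⟨h1, h2⟩
  · exact ⟨h1 ▸ List.getElem_mem _, h2 ▸ List.getElem_mem _⟩
  · exact ⟨h2 ▸ List.getElem_mem _, h1 ▸ List.getElem_mem _⟩

theorem consB_adj {V : Type} {G : SimpleGraph V} {ψ : ℕ → V} {v : V} {l : List ℕ} {a b : ℕ}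
    (h : consB l a b = true) (hl : IsLink G v (l.map ψ)) : G.Adj (ψ a) (ψ b) := by
  obtain ⟨i, hi, hj, h⟩ := consB_spec h
  have key : G.Adj (ψ l[i]) (ψ l[(i + 1) % l.length]) := by
    have := (hl.adj i ((i + 1) % l.length) (by simpa using hi) (by simpa using hj)).2
      (Or.inl (by simp))
    simpa using this
  rcases h with ⟨h1, h2⟩ | ⟨h1, h2⟩
  · rw [← h1, ← h2]; exact key
  · rw [← h1, ← h2]; exact key.symm

theorem cB_spec {P : Pat} {v a b : ℕ} (h : P.cB v a b = true) :
    v < P.nI ∧ consB (P.link v) a b = true := by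
  unfold Pat.cB at h
  rw [Bool.and_eq_true] at h
  refine ⟨?_, h.2⟩
  have := h.1
  simpa [Nat.blt_eq] using this

theorem realizes_link {V : Type} {G : SimpleGraph V} {X : Set V} {P : Pat} {ψ : ℕ → V}
    (h : Realizes G X P.entries ψ) {v : ℕ} (hv : v < P.nI) :
    ψ v ∈ X ∧ IsLink G (ψ v) ((P.link v).map ψ) := by
  have := h (v, P.link v) (by
    unfold Pat.entries
    rw [List.mem_map]
    exact ⟨v, List.mem_range.2 hv, rfl⟩)
  exact this

theorem map_inj_on {V : Type} {ψ : ℕ → V} {l : List ℕ} (h : (l.map ψ).Nodup) {a b : ℕ}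
    (ha : a ∈ l) (hb : b ∈ l) (hab : ψ a = ψ b) : a = b :=
  List.inj_on_of_nodup_map h ha hb hab

/-- Next neighbour on an induced cycle. -/
theorem next_pos {V : Type} {G : SimpleGraph V} {z : V} {l : List V} (hl : IsLink G z l)
    {j : ℕ} (hj0 : j % l.length < l.length) (hj1 : (j + 1) % l.length < l.length)
    (hj2 : (j + 2) % l.length < l.length)
    {c : V} (hc : G.Adj z c) (hbc : G.Adj c (l[(j + 1) % l.length]))
    (hca : c ≠ l[j % l.length]) : c = l[(j + 2) % l.length] := by
  have hcl : c ∈ l := (hl.mem c).2 hc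
  obtain ⟨i, hi, rfl⟩ := List.getElem_of_mem hcl
  have h1 := (hl.adj i ((j + 1) % l.length) hi hj1).1 hbc
  have hn : 4 ≤ l.length := hl.len
  rcases h1 with h1 | h1
  · exfalso
    apply hca
    have h2 : i = j % l.length := by
      have e : (j + 1) ≡ (i + 1) [MOD l.length] := by
        unfold Nat.ModEq
        exact h1
      have e' : j ≡ i [MOD l.length] := Nat.ModEq.add_right_cancel' 1 e
      unfold Nat.ModEq at e'
      rw [e', Nat.mod_eq_of_lt hi]
    subst h2
    rfl
  · have h2 : i = (j + 2) % l.length := by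
      rw [h1]
      rw [Nat.mod_add_mod]
    subst h2
    rfl

theorem walk_spec {V : Type} {G : SimpleGraph V} {X : Set V} {P : Pat} {ψ : ℕ → V} {u : ℕ}
    {p : List ℕ} (hr : Realizes G X P.entries ψ)
    (hp : ∀ i (h : i + 2 < p.length),
      P.cB (p[i+1]'(by omega)) (p[i]'(by omega)) u = true ∧
      P.cB (p[i+1]'(by omega)) u (p[i+2]'(by omega)) = true ∧
      (p[i]'(by omega)) ≠ (p[i+2]'(by omega)))
    {l : List V} (hl : IsLink G (ψ u) l) (hlen : ∀ j, j % l.length < l.length)
    (h0 : ∀ h : 0 < p.length, ψ p[0] = l[0 % l.length]'(hlen 0))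
    (h1 : ∀ h : 1 < p.length, ψ p[1] = l[1 % l.length]'(hlen 1)) :
    ∀ i (h : i < p.length), ψ p[i] = l[i % l.length]'(hlen i) := by
  intro i
  induction i using Nat.strong_induction_on with
  | _ i ih =>
    intro hi
    match i, hi, ih with
    | 0, hi, _ => exact h0 hi
    | 1, hi, _ => exact h1 hi
    | j + 2, hi, ih =>
      obtain ⟨c1, c2, c3⟩ := hp j hi
      obtain ⟨hv, c1'⟩ := cB_spec c1
      obtain ⟨-, c2'⟩ := cB_spec c2
      obtain ⟨hX, hlv⟩ := realizes_link hr hv
      have a1 : G.Adj (ψ u) (ψ p[j + 2]) := consB_adj c2' hlv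
      have a2 : G.Adj (ψ p[j + 1]) (ψ p[j + 2]) := by
        rw [← hlv.mem]
        exact List.mem_map_of_mem (consB_mem c2').2
      have hj := ih j (by omega) (by omega)
      have hj1 := ih (j + 1) (by omega) (by omega)
      apply next_pos hl (hlen j) (hlen (j + 1)) (hlen (j + 2)) a1
      · rw [← hj1]
        exact a2.symm
      · intro h
        rw [← hj] at h
        exact c3 (map_inj_on hlv.nodup (consB_mem c1').1 (consB_mem c2').2 h.symm)

theorem renB_cases (p : List ℕ) (d a : ℕ) :
    renB p d a = a ∨ ∃ i, ∃ (h : d + i < p.length), p[d + i] = a ∧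
      renB p d a = p[i]'(by omega) := by
  unfold renB
  cases h : (p.drop d).findIdx? (fun x => Nat.beq x a) with
  | none => exact Or.inl rfl
  | some i =>
    right
    rw [List.findIdx?_eq_some_iff_getElem] at h
    obtain ⟨hi, h1, -⟩ := h
    have hi' : d + i < p.length := by
      rw [List.length_drop] at hi
      omega
    refine ⟨i, hi', ?_, ?_⟩
    · rw [List.getElem_drop] at h1
      simpa [Nat.beq_eq] using h1
    · simp only
      rw [List.getD_eq_getElem _ _ (by omega)]

/-- FALLB. -/
theorem fallb (hapi : LinkApi) : FallbackStatement := by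
  intro V G C X hce hreg P u d p ψ hwf hu hd hdp har hreal hexc huX hdeg
  obtain ⟨hk3, hp⟩ := around_spec P u p har
  have huN : u < P.N := by
    unfold Pat.ringB at hu
    rw [Bool.and_eq_true] at hu
    have := hu.2
    simpa [Nat.blt_eq] using this
  -- the labels of the walk
  have hpN : ∀ a ∈ p, a < P.N := by
    intro a ha
    obtain ⟨i, hi, rfl⟩ := List.getElem_of_mem ha
    rcases Nat.lt_or_ge i 2 with h2 | h2
    · rcases Nat.lt_or_ge i 1 with h1 | h1
      · have hi0 : i = 0 := by omega
        subst hi0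
        obtain ⟨hv, c⟩ := cB_spec (hp 0 (by omega)).1
        exact hwf.lt _ hv _ (consB_mem c).1
      · have hi0 : i = 1 := by omega
        subst hi0
        obtain ⟨hv, c⟩ := cB_spec (hp 0 (by omega)).1
        exact lt_of_lt_of_le hv hwf.le
    · obtain ⟨j, rfl⟩ : ∃ j, i = j + 2 := ⟨i - 2, by omega⟩
      obtain ⟨hv, c⟩ := cB_spec (hp j hi).2.1
      exact hwf.lt _ hv _ (consB_mem c).2
  -- the link of `ψ u`
  obtain ⟨l0, hl0⟩ := hce.link (ψ u)
  obtain ⟨hv, c1⟩ := cB_spec (hp 0 (by omega)).1
  obtain ⟨hX, hlv⟩ := realizes_link hreal hv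
  have e1 : G.Adj (ψ (p[0 + 1]'(by omega))) (ψ u) := by
    rw [← hlv.mem]
    exact List.mem_map_of_mem (consB_mem c1).2
  have e2 : G.Adj (ψ (p[0]'(by omega))) (ψ u) := consB_adj c1 hlv
  have e3 : G.Adj (ψ (p[0 + 1]'(by omega))) (ψ (p[0]'(by omega))) := by
    rw [← hlv.mem]
    exact List.mem_map_of_mem (consB_mem c1).1
  obtain ⟨l', hl', -⟩ := hapi.first V G (ψ u) _ _ l0 hl0 e2.symm e1.symm e3.symm
  set l : List V := ψ (p[0]'(by omega)) :: ψ (p[0 + 1]'(by omega)) :: l' with hldef
  have hll : l.length = d := by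
    rw [← hdeg]
    exact (hapi.dg V G (ψ u) l hl').symm
  have hlen : ∀ j, j % l.length < l.length := fun j => Nat.mod_lt _ (by omega)
  have hw := walk_spec hreal hp hl' hlen
    (by
      intro h
      have : 0 % l.length = 0 := Nat.zero_mod _
      simp only [this]
      rfl)
    (by
      intro h
      have : 1 % l.length = 1 := Nat.mod_eq_of_lt (by omega)
      simp only [this]
      rfl)
  have hper : ∀ i (h : d + i < p.length), ψ (p[d + i]) = ψ (p[i]'(by omega)) := by
    intro i h
    rw [hw _ h, hw i (by omega)]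
    congr 1
    rw [hll]
    exact Nat.add_mod_left d i
  have hrenN : ∀ a, a < P.N → renB p d a < P.N := by
    intro a ha
    rcases renB_cases p d a with h | ⟨i, h, -, h2⟩
    · rw [h]; exact ha
    · rw [h2]; exact hpN _ (List.getElem_mem _)
  have hrenψ : ∀ a, ψ (renB p d a) = ψ a := by
    intro a
    rcases renB_cases p d a with h | ⟨i, h, h1, h2⟩
    · rw [h]
    · rw [h2, ← hper i h, h1]
  set ψ' : ℕ → V := fun a => if a < P.N then ψ a else l.getD (p.length + (a - P.N)) (ψ 0)
    with hψ'
  have hψlt : ∀ a, a < P.N → ψ' a = ψ a := by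
    intro a ha
    rw [hψ']
    simp only [ha, if_true]
  apply hexc
  refine ⟨ψ', ?_⟩
  intro e he
  unfold Pat.ext at he
  rw [List.mem_append] at he
  rcases he with he | he
  · rw [List.mem_map] at he
    obtain ⟨e0, he0, rfl⟩ := he
    unfold Pat.entries at he0
    rw [List.mem_map] at he0
    obtain ⟨v, hv, rfl⟩ := he0
    rw [List.mem_range] at hv
    obtain ⟨hX, hlv⟩ := realizes_link hreal hv
    have ev : ψ' (renB p d v) = ψ v := by
      rw [hψlt _ (hrenN v (lt_of_lt_of_le hv hwf.le)), hrenψ]
    refine ⟨?_, ?_⟩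
    · simp only
      rw [ev]; exact hX
    · simp only
      rw [ev]
      have : ((P.link v).map (renB p d)).map ψ' = (P.link v).map ψ := by
        rw [List.map_map]
        apply List.map_congr_left
        intro a ha
        simp only [Function.comp]
        rw [hψlt _ (hrenN a (hwf.lt v hv a ha)), hrenψ]
      rw [this]
      exact hlv
  · rw [List.mem_singleton] at he
    subst he
    simp only
    rw [hψlt u huN]
    refine ⟨huX, ?_⟩
    have : (p.take d ++ (List.range (d - p.length)).map (fun i => P.N + i)).map ψ' = l := by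
      apply List.ext_getElem
      · simp only [List.length_map, List.length_append, List.length_take, List.length_range]
        omega
      · intro i h1 h2
        rw [hll] at h2
        rw [List.getElem_map]
        rcases Nat.lt_or_ge i p.length with h3 | h3
        · have hi : i < (p.take d).length := by
            rw [List.length_take]; omega
          rw [List.getElem_append_left hi, List.getElem_take,
            hψlt _ (hpN _ (List.getElem_mem _)), hw i h3]
          congr 1
          rw [hll]
          exact Nat.mod_eq_of_lt h2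
        · have hi : (p.take d).length ≤ i := by
            rw [List.length_take]; omega
          rw [List.getElem_append_right hi, List.getElem_map, List.getElem_range]
          have e : (p.take d).length = p.length := by
            rw [List.length_take]; omega
          rw [hψ']
          simp only [e]
          rw [if_neg (by omega)]
          have e' : p.length + (P.N + (i - p.length) - P.N) = i := by omega
          rw [e', List.getD_eq_getElem _ _ (by omega)]
    rw [this]
    exact hl'

end StrongArb.H94
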